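import Mathlib
import Pool.Agent.W245.EB.Mix2

/-!
# Elliptic logarithms of generic points and `ζ`: no relation of bounded degree

Let `Ω` be a lattice with algebraic invariants `g₂, g₃`, let `k = End(ℂ/Ω) ⊗ ℚ`, and for `i < n` let
`u_{i1}, …, u_{iR}` be elliptic logarithms of algebraic points, linearly independent over `k`.

If `Ω` has complex multiplication by `α`, then for all integers `m, m'` outside a hypersurface of
explicit degree, the points `p_i = ∑ (m_{ij} + m'_{ij} α) u_{ij}` are such that the `2n` numbers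
`p_i, ζ(p_i)` satisfy no nontrivial polynomial relation of degree at most `D` with coefficients in a
given space of dimension at most `N` over the algebraic numbers, as soon as `R ≥ N (D + 1)^{2n}`.
For an arbitrary `Ω` the same holds for the `n` numbers `s_i ζ(p_i) + ρ_i p_i`.

The proof contains complete formalizations of the theorems on linear forms in elliptic logarithms
and in integrals of the second kind which are used (`Pool.Agent.W245.EB.RedZ`), by the theorem of
Schneider and Lang on Cartesian products (`Pool.Agent.W245.EB.AD2`), and of the action of complex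
multiplication on `ζ` (`Pool.Agent.W245.EB.CMz2`).
-/

open scoped PeriodPair

noncomputable section

namespace Pool.Agent.Results.MP_2ad15a_nt.GenericEllipticPoints

/-- The field of algebraic numbers. -/
abbrev Qbar : IntermediateField ℚ ℂ := algebraicClosure ℚ ℂ

/-- The Weierstrass zeta function
`ζ(z) = 1/z + ∑_{l ≠ 0} (1/(z - l) + 1/l + z/l²)` (in Lean `1/0 = 0`, so that the term with `l = 0`
of the sum below is `1/z`). -/
def zetaW (L : PeriodPair) (z : ℂ) : ℂ := ∑' l : L.lattice, (1 / (z - l) + 1 / l + z / l ^ 2)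

/-- The quasi-period `ζ(z + ω) - ζ(z)` attached to `ω ∈ Ω`, computed at `z = ω₁/2`. -/
def quasi (L : PeriodPair) (ω : ℂ) : ℂ := zetaW L (L.ω₁ / 2 + ω) - zetaW L (L.ω₁ / 2)

/-- `β` belongs to the field `k = End(ℂ/Ω) ⊗ ℚ`: some multiple `m β`, `m ≥ 1`, maps the lattice `Ω`
to itself. -/
def IsMult (L : PeriodPair) (β : ℂ) : Prop :=
  ∃ m : ℕ, 0 < m ∧ ∀ ω ∈ L.lattice, (m : ℂ) * β * ω ∈ L.lattice

/-- The numbers `w_j` are linearly independent over `k`. -/
def IndepMult (L : PeriodPair) {R : ℕ} (w : Fin R → ℂ) : Prop :=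
  ∀ β : Fin R → ℂ, (∀ j, IsMult L (β j)) → ∑ j, β j * w j = 0 → ∀ j, β j = 0

/-- The numbers `x_i` satisfy no nontrivial polynomial relation of total degree at most `D` with
coefficients in `W`. -/
def NoRelation (W : Submodule Qbar ℂ) (D : ℕ) {σ : Type} (x : σ → ℂ) : Prop :=
  ∀ Q : MvPolynomial σ ℂ, Q.totalDegree ≤ D → (∀ s, Q.coeff s ∈ W) →
    MvPolynomial.eval x Q = 0 → Q = 0

open Pool.Agent.W245.EB

/-- **Main result.** -/
theorem result (L : PeriodPair) (h2 : IsAlgebraic ℚ L.g₂) (h3 : IsAlgebraic ℚ L.g₃)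
    (N D n R : ℕ) (hD : 1 ≤ D)
    (W : Submodule Qbar ℂ) (hfin : Module.Finite Qbar W) (hW : Module.finrank Qbar W ≤ N)
    (h1 : (1 : ℂ) ∈ W) (hΩ : ∀ ω ∈ L.lattice, ω ∈ W ∧ quasi L ω ∈ W)
    (u : Fin n → Fin R → ℂ)
    (hu : ∀ i j, u i j ∈ L.lattice ∨ IsAlgebraic ℚ (℘[L] (u i j)))
    (hind : ∀ i, IndepMult L (u i)) :
    -- complex multiplication
    (N * (D + 1) ^ (2 * n) ≤ R → ∀ α : ℂ, α.im ≠ 0 → (∀ ω ∈ L.lattice, α * ω ∈ L.lattice) →
      ∃ F : MvPolynomial ((Fin n ⊕ Fin n) × Fin R) Qbar, F ≠ 0 ∧
        F.totalDegree ≤ N * (D + 1) ^ (2 * n) * (2 * n * D) ∧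
        ∀ m m' : Fin n → Fin R → ℤ,
          MvPolynomial.eval (fun q => ((Sum.elim m m' q.1 q.2 : ℤ) : Qbar)) F ≠ 0 →
          ∀ p : Fin n → ℂ, p = (fun i => ∑ j, ((m i j : ℂ) + m' i j * α) * u i j) →
            (∀ i, p i ∉ L.lattice ∧ IsAlgebraic ℚ (℘[L] (p i))) ∧ IndepMult L p ∧
            NoRelation W D (Sum.elim p (fun i => zetaW L (p i)))) ∧
    -- arbitrary lattices
    (N * (D + 1) ^ n ≤ R → ∀ s ρ : Fin n → ℂ, (∀ i, IsAlgebraic ℚ (s i)) →
      (∀ i, IsAlgebraic ℚ (ρ i)) → (∀ i, s i ≠ 0 ∨ ρ i ≠ 0) →
      ∃ F : MvPolynomial (Fin n × Fin R) Qbar, F ≠ 0 ∧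
        F.totalDegree ≤ N * (D + 1) ^ n * (n * D) ∧
        ∀ m : Fin n → Fin R → ℤ,
          MvPolynomial.eval (fun q => ((m q.1 q.2 : ℤ) : Qbar)) F ≠ 0 →
          ∀ p : Fin n → ℂ, p = (fun i => ∑ j, (m i j : ℂ) * u i j) →
            (∀ i, p i ∉ L.lattice ∧ IsAlgebraic ℚ (℘[L] (p i))) ∧
            NoRelation W D (fun i => s i * zetaW L (p i) + ρ i * p i)) := by
  classical
  have hEll : ∀ i, EllFam L (u i) := fun i =>
    ⟨hu i, fun β hβ h0 => funext fun j => hind i β hβ h0 j⟩
  have hEL : ∀ x ∈ EL L, x ∉ L.lattice → IsAlgebraic ℚ (℘[L] x) := fun x hx hx' =>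
    hx.resolve_left hx'
  refine ⟨?_, ?_⟩
  · intro hR α hα hmul
    let d : Data (Fin 0) (Fin 0) (Fin n) (Fin R) :=
      { wA := fun a => a.elim0
        hA := fun a => a.elim0
        LB := fun b => b.elim0
        g2B := fun b => b.elim0
        g3B := fun b => b.elim0
        uB := fun b => b.elim0
        hB := fun b => b.elim0
        s := fun b => b.elim0
        ρ := fun b => b.elim0
        hs := fun b => b.elim0
        hρ := fun b => b.elim0
        hsρ := fun b => b.elim0
        LC := fun _ => L
        g2C := fun _ => h2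
        g3C := fun _ => h3
        uC := u
        hC := hEll
        α := fun _ => α
        hα := fun _ => hα
        hmul := fun _ => hmul }
    have e0 : Fintype.card (Fin 0) + (Fintype.card (Fin 0) + (Fintype.card (Fin n) +
        Fintype.card (Fin n))) = 2 * n := by
      simp only [Fintype.card_fin]
      ring
    obtain ⟨F, hF0, hFd, hF⟩ := d.main N D W hfin hW (by
      rw [e0, Fintype.card_fin]
      exact hR)
    rw [e0] at hFd
    let f : Data.Ind (Fin 0) (Fin 0) (Fin n) → Fin n ⊕ Fin n :=
      Sum.elim (fun a => a.elim0) (Sum.elim (fun a => a.elim0) id)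
    have hf : Function.Injective f := by
      rintro (a | a | a) (b | b | b) hab
      · exact a.elim0
      · exact a.elim0
      · exact a.elim0
      · exact b.elim0
      · exact a.elim0
      · exact a.elim0
      · exact b.elim0
      · exact b.elim0
      · have : a = b := hab
        rw [this]
    let g : Data.Ind (Fin 0) (Fin 0) (Fin n) × Fin R → (Fin n ⊕ Fin n) × Fin R := Prod.map f id
    have hg : Function.Injective g := hf.prodMap Function.injective_id
    refine ⟨MvPolynomial.rename g F, ?_, (MvPolynomial.totalDegree_rename_le _ _).trans hFd, ?_⟩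
    · intro h
      apply hF0
      apply MvPolynomial.rename_injective g hg
      rw [h, map_zero]
    intro m m' hm p hp
    have h4 := hF (fun i => Sum.elim m m' (f i)) (by
      intro h5
      apply hm
      rw [MvPolynomial.eval_rename]
      exact h5)
    have hpC : d.pC (fun i => Sum.elim m m' (f i)) = p := by
      rw [hp]
      rfl
    have hpE : ∀ i, p i ∈ EL L := by
      intro i
      rw [← hpC]
      exact d.pC_mem _ i
    have h5 : NoRelTot W D (Sum.elim p (fun i => zt L (p i))) := by
      have h6 := h4.comp (fun i : Fin n ⊕ Fin n => (Sum.inr (Sum.inr i) : Data.Ind (Fin 0) (Fin 0) (Fin n)))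
        (fun a b hab => Sum.inr_injective (Sum.inr_injective hab))
      have h7 : (fun i : Fin n ⊕ Fin n => d.num (fun i => Sum.elim m m' (f i)) (Sum.inr (Sum.inr i))) =
          Sum.elim p (fun i => zt L (p i)) := by
        rw [← hpC]
        funext i
        rcases i with i | i <;> rfl
      rw [← h7]
      exact h6
    have hpn : ∀ i, p i ∉ L.lattice := fun i hi => (h5.ne hD h1 (Sum.inl i)) (hΩ _ hi).1
    refine ⟨fun i => ⟨hpn i, hEL _ (hpE i) (hpn i)⟩, ?_, ?_⟩
    · intro β hβ h0 i
      let β' : Fin n ⊕ Fin n → Qbar := Sum.elim (fun i => ⟨β i, mult_mem_Qb (hβ i)⟩) (fun _ => 0)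
      have h6 := h5.linear hD h1 β' (W.zero_mem) (by
        rw [Fintype.sum_sum_type]
        simp only [β', Sum.elim_inl, Sum.elim_inr, map_zero, zero_mul, Finset.sum_const_zero, add_zero]
        exact h0)
      have h7 := congrFun h6 (Sum.inl i)
      exact congrArg (fun x : Qbar => (x : ℂ)) h7
    · have h6 : (fun i => zetaW L (p i)) = fun i => zt L (p i) := by
        funext i
        rw [zt_of_notMem (hpn i)]
        rfl
      rw [h6]
      exact h5
  · intro hR s ρ hs hρ hsρ
    let d : Data (Fin 0) (Fin n) (Fin 0) (Fin R) :=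
      { wA := fun a => a.elim0
        hA := fun a => a.elim0
        LB := fun _ => L
        g2B := fun _ => h2
        g3B := fun _ => h3
        uB := u
        hB := hEll
        s := s
        ρ := ρ
        hs := hs
        hρ := hρ
        hsρ := hsρ
        LC := fun c => c.elim0
        g2C := fun c => c.elim0
        g3C := fun c => c.elim0
        uC := fun c => c.elim0
        hC := fun c => c.elim0
        α := fun c => c.elim0
        hα := fun c => c.elim0
        hmul := fun c => c.elim0 }
    have e0 : Fintype.card (Fin 0) + (Fintype.card (Fin n) + (Fintype.card (Fin 0) +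
        Fintype.card (Fin 0))) = n := by
      simp only [Fintype.card_fin]
      ring
    obtain ⟨F, hF0, hFd, hF⟩ := d.main N D W hfin hW (by
      rw [e0, Fintype.card_fin]
      exact hR)
    rw [e0] at hFd
    let f : Data.Ind (Fin 0) (Fin n) (Fin 0) → Fin n :=
      Sum.elim (fun a => a.elim0) (Sum.elim id (Sum.elim (fun a => a.elim0) (fun a => a.elim0)))
    have hf : Function.Injective f := by
      rintro (a | a | a | a) (b | b | b | b) hab
      all_goals first
        | exact a.elim0
        | exact b.elim0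
        | (have : a = b := hab
           rw [this])
    let g : Data.Ind (Fin 0) (Fin n) (Fin 0) × Fin R → Fin n × Fin R := Prod.map f id
    have hg : Function.Injective g := hf.prodMap Function.injective_id
    refine ⟨MvPolynomial.rename g F, ?_, (MvPolynomial.totalDegree_rename_le _ _).trans hFd, ?_⟩
    · intro h
      apply hF0
      apply MvPolynomial.rename_injective g hg
      rw [h, map_zero]
    intro m hm p hp
    have h4 := hF (fun i => m (f i)) (by
      intro h5
      apply hm
      rw [MvPolynomial.eval_rename]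
      exact h5)
    have hpB : d.pB (fun i => m (f i)) = p := by
      rw [hp]
      rfl
    have hpE : ∀ i, p i ∈ EL L := by
      intro i
      rw [← hpB]
      exact d.pB_mem _ i
    have h5 : NoRelTot W D (fun i => s i * zt L (p i) + ρ i * p i) := by
      have h6 := h4.comp (fun i : Fin n => (Sum.inr (Sum.inl i) : Data.Ind (Fin 0) (Fin n) (Fin 0)))
        (fun a b hab => Sum.inl_injective (Sum.inr_injective hab))
      have h7 : (fun i : Fin n => d.num (fun i => m (f i)) (Sum.inr (Sum.inl i))) =
          (fun i => s i * zt L (p i) + ρ i * p i) := by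
        rw [← hpB]
        funext i
        rfl
      rw [← h7]
      exact h6
    have hpn : ∀ i, p i ∉ L.lattice := by
      intro i hi
      apply h5.ne hD h1 i
      obtain ⟨h6, h7⟩ := hΩ _ hi
      have h8 : quasi L (p i) = H667R3.eta L (p i) := rfl
      rw [h8] at h7
      show s i * zt L (p i) + ρ i * p i ∈ W
      rw [zt_of_mem hi]
      exact W.add_mem (W.smul_mem (⟨s i, mem_algebraicClosure_iff.2 (hs i)⟩ : Qbar) h7)
        (W.smul_mem (⟨ρ i, mem_algebraicClosure_iff.2 (hρ i)⟩ : Qbar) h6)
    refine ⟨fun i => ⟨hpn i, hEL _ (hpE i) (hpn i)⟩, ?_⟩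
    have h6 : (fun i => s i * zetaW L (p i) + ρ i * p i) = fun i => s i * zt L (p i) + ρ i * p i := by
      funext i
      rw [zt_of_notMem (hpn i)]
      rfl
    rw [h6]
    exact h5

end Pool.Agent.Results.MP_2ad15a_nt.GenericEllipticPoints
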